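import Pool.Agent.Helper75.CR.St

/-!
# Project CR, module I: congruences of a completely simple semigroup
-/

set_option autoImplicit false

namespace Pool.Agent.Helper51.CR

open Pool.Agent.Helper75.CR

section main
variable {Q : Type} [Semigroup Q]

/-- The local inverse. -/
theorem ex_h {e : Q} (he : e * e = e) (h1 : ∀ a b : Q, ∃ u, a = a * b * u * a)
    (h2 : ∀ a b : Q, ∃ u, a = a * u * b * a) (a : Q) :
    ∃ h : Q, e * h = h ∧ h * e = h ∧ h * (e * a * e) = e ∧ (e * a * e) * h = e := by
  obtain ⟨u, hu⟩ := h1 e (a * e)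
  obtain ⟨u', hu'⟩ := h2 e (e * a)
  have k1 : e * (e * u * e) = e * u * e := by rw [← mul_assoc, ← mul_assoc, he]
  have k2 : (e * u * e) * e = e * u * e := by rw [mul_assoc, he]
  have k3 : (e * a * e) * (e * u * e) = e := by
    calc (e * a * e) * (e * u * e) = e * a * (e * e) * u * e := by simp only [mul_assoc]
      _ = e * (a * e) * u * e := by rw [he]; simp only [mul_assoc]
      _ = e := hu.symm
  have k4 : (e * u' * e) * (e * a * e) = e := by
    calc (e * u' * e) * (e * a * e) = e * u' * (e * e) * a * e := by simp only [mul_assoc]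
      _ = e * u' * (e * a) * e := by rw [he]; simp only [mul_assoc]
      _ = e := hu'.symm
  have k5 : e * u * e = e * u' * e := by
    calc e * u * e = e * (e * u * e) := k1.symm
      _ = ((e * u' * e) * (e * a * e)) * (e * u * e) := by rw [k4]
      _ = (e * u' * e) * ((e * a * e) * (e * u * e)) := by rw [mul_assoc]
      _ = (e * u' * e) * e := by rw [k3]
      _ = e * u' * e := by rw [mul_assoc, he]
  exact ⟨e * u * e, k1, k2, by rw [k5]; exact k4, k3⟩

/-- The element `h` is a weak inverse of `a`. -/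
theorem aha {e : Q} (h1 : ∀ a b : Q, ∃ u, a = a * b * u * a)
    (h2 : ∀ a b : Q, ∃ u, a = a * u * b * a) (a h : Q) (he : e * e = e) (e1 : e * h = h) (e2 : h * e = h)
    (e4 : (e * a * e) * h = e) : a * h * a = a := by
  obtain ⟨u, hu⟩ := h1 a e
  obtain ⟨v, hv⟩ := h2 a e
  have q1 : (e * a * e) * h * (e * a * e) = e * a * e := by
    rw [e4]
    simp only [← mul_assoc]
    rw [he]
  have q2 : a = a * v * (e * a * e) * u * a := by
    calc a = a * v * e * a := hv
      _ = a * v * e * (a * e * u * a) := by rw [← hu]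
      _ = a * v * (e * a * e) * u * a := by simp only [mul_assoc]
  have q3 : a = (a * v * e * a) * (e * h * e) * (a * e * u * a) := by
    calc a = a * v * (e * a * e) * u * a := q2
      _ = a * v * ((e * a * e) * h * (e * a * e)) * u * a := by rw [q1]
      _ = (a * v * e * a) * (e * h * e) * (a * e * u * a) := by simp only [mul_assoc]
  rw [← hv, ← hu, e1, e2] at q3
  exact q3.symm

theorem main (α β : Con Q) (h1 : ∀ a b : Q, ∃ u, a = a * b * u * a)
    (h2 : ∀ a b : Q, ∃ u, a = a * u * b * a)
    (hR : ∀ a w b : Q, RR α a w → RR β w b → ∃ w', RR β a w' ∧ RR α w' b)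
    (hL : ∀ a w b : Q, LL α a w → LL β w b → ∃ w', LL β a w' ∧ LL α w' b)
    (a w b : Q) (haw : α a w) (hwb : β w b) : ∃ w', β a w' ∧ α w' b := by
  obtain ⟨e, he⟩ : ∃ e : Q, e * e = e := by
    obtain ⟨u, hu⟩ := h1 a a
    refine ⟨a * a * u, ?_⟩
    calc a * a * u * (a * a * u) = (a * a * u * a) * a * u := by simp only [mul_assoc]
      _ = a * a * u := by rw [← hu]
  choose h e1 e2 e3 e4 using ex_h he h1 h2
  have ah : ∀ a, a * h a * a = a := fun a => aha h1 h2 a (h a) he (e1 a) (e2 a) (e4 a)
  -- idempotents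
  have p1 : ∀ a, (a * h a) * e = a * h a := fun a => by rw [mul_assoc, e2]
  have p2 : ∀ a, e * (a * h a) = e := fun a => by
    calc e * (a * h a) = e * (a * (e * h a)) := by rw [e1]
      _ = (e * a * e) * h a := by simp only [mul_assoc]
      _ = e := e4 a
  have p3 : ∀ a, e * (h a * a) = h a * a := fun a => by rw [← mul_assoc, e1]
  have p4 : ∀ a, (h a * a) * e = e := fun a => by
    calc (h a * a) * e = (h a * e) * a * e := by rw [e2]
      _ = h a * (e * a * e) := by simp only [mul_assoc]
      _ = e := e3 a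
  have dec : ∀ a, a = (a * h a) * (e * a * e) * (h a * a) := fun a => by
    have : (a * h a) * (e * a * e) * (h a * a) = (a * (h a * e) * a) * (e * h a) * a := by
      simp only [mul_assoc]
    rw [this, e1, e2, ah, ah]
  have cR : ∀ (ρ : Con Q) (a b : Q), RR ρ a b → ρ (a * h a) (b * h b) := by
    intro ρ a b hab
    obtain ⟨_, q, hq⟩ := hab
    have s1 : (b * h b) * (b * q) = b * q := by rw [← mul_assoc, ah]
    have s2 : ρ ((b * h b) * a) a := by
      have := ρ.mul (ρ.refl (b * h b)) hq
      rw [s1] at this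
      exact ρ.trans (ρ.symm this) hq
    have s3 : ρ ((b * h b) * a * h a) (a * h a) := ρ.mul s2 (ρ.refl _)
    have s4 : (b * h b) * a * h a = b * h b := by
      calc (b * h b) * a * h a = ((b * h b) * e) * (a * h a) := by rw [p1]; simp only [mul_assoc]
        _ = (b * h b) * (e * (a * h a)) := by simp only [mul_assoc]
        _ = b * h b := by rw [p2, p1]
    rw [s4] at s3
    exact ρ.symm s3
  have cL : ∀ (ρ : Con Q) (a b : Q), LL ρ a b → ρ (h a * a) (h b * b) := by
    intro ρ a b hab
    obtain ⟨_, q, hq⟩ := hab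
    have s1 : (q * b) * (h b * b) = q * b := by
      calc (q * b) * (h b * b) = q * (b * h b * b) := by simp only [mul_assoc]
        _ = q * b := by rw [ah]
    have s2 : ρ (a * (h b * b)) a := by
      have := ρ.mul hq (ρ.refl (h b * b))
      rw [s1] at this
      exact ρ.trans (ρ.symm this) hq
    have s3 : ρ (h a * (a * (h b * b))) (h a * a) := ρ.mul (ρ.refl _) s2
    have s4 : h a * (a * (h b * b)) = h b * b := by
      calc h a * (a * (h b * b)) = h a * (a * (e * (h b * b))) := by rw [p3]
        _ = ((h a * a) * e) * (h b * b) := by simp only [mul_assoc]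
        _ = h b * b := by rw [p4, p3]
    rw [s4] at s3
    exact ρ.symm s3
  have rr : ∀ (ρ : Con Q) (a b : Q), ρ a b → RR ρ a b := by
    intro ρ a b hab
    obtain ⟨u, hu⟩ := h1 a a
    obtain ⟨v, hv⟩ := h1 b b
    refine ⟨⟨a * u * a, ?_⟩, b * v * b, ?_⟩
    · have : a * (a * u * a) = a := by simp only [← mul_assoc]; exact hu.symm
      rw [this]; exact hab
    · have : b * (b * v * b) = b := by simp only [← mul_assoc]; exact hv.symm
      rw [this]; exact ρ.symm hab
  have ll : ∀ (ρ : Con Q) (a b : Q), ρ a b → LL ρ a b := by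
    intro ρ a b hab
    obtain ⟨u, hu⟩ := h1 a a
    obtain ⟨v, hv⟩ := h1 b b
    refine ⟨⟨a * a * u, ?_⟩, b * b * v, ?_⟩
    · rw [← hu]; exact hab
    · rw [← hv]; exact ρ.symm hab
  obtain ⟨w1, hw1, hw1'⟩ := hR a w b (rr α a w haw) (rr β w b hwb)
  obtain ⟨w2, hw2, hw2'⟩ := hL a w b (ll α a w haw) (ll β w b hwb)
  -- group part
  have hx : (e * a * e) * e = e * a * e := by rw [mul_assoc, he]
  have ht : e * (e * b * e) = e * b * e := by rw [← mul_assoc, ← mul_assoc, he]
  have hxy : α (e * a * e) (e * w * e) := α.mul (α.mul (α.refl e) haw) (α.refl e)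
  have hyt : β (e * w * e) (e * b * e) := β.mul (β.mul (β.refl e) hwb) (β.refl e)
  have g1 : β (e * a * e) ((e * a * e) * h w * (e * b * e)) := by
    have t1 : β ((e * a * e) * h w * (e * w * e)) ((e * a * e) * h w * (e * b * e)) :=
      β.mul (β.refl _) hyt
    rwa [mul_assoc, e3, hx] at t1
  have g2 : α ((e * a * e) * h w * (e * b * e)) (e * b * e) := by
    have t1 : α ((e * a * e) * h w * (e * b * e)) ((e * w * e) * h w * (e * b * e)) :=
      α.mul (α.mul hxy (α.refl _)) (α.refl _)
    rwa [e4, ht] at t1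
  refine ⟨(w1 * h w1) * ((e * a * e) * h w * (e * b * e)) * (h w2 * w2), ?_, ?_⟩
  · have t := β.mul (β.mul (cR β a w1 hw1) g1) (cL β a w2 hw2)
    rwa [← dec a] at t
  · have t := α.mul (α.mul (cR α w1 b hw1') g2) (cL α w2 b hw2')
    rwa [← dec b] at t

end main

section push
variable {T : Type} [Semigroup T]

/-- The image of a congruence in a quotient. -/
def push (θ α : Con T) (h : θ ≤ α) : Con θ.Quotient where
  r x y := ∃ a b : T, (a : θ.Quotient) = x ∧ (b : θ.Quotient) = y ∧ α a b
  iseqv := by
    refine ⟨?_, ?_, ?_⟩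
    · intro x
      induction x using Con.induction_on with
      | _ a => exact ⟨a, a, rfl, rfl, α.refl a⟩
    · rintro x y ⟨a, b, ha, hb, hab⟩
      exact ⟨b, a, hb, ha, α.symm hab⟩
    · rintro x y z ⟨a, b, ha, hb, hab⟩ ⟨b', c, hb', hc, hbc⟩
      have : θ b b' := (Con.eq θ).1 (hb.trans hb'.symm)
      exact ⟨a, c, ha, hc, α.trans (α.trans hab (h this)) hbc⟩
  mul' := by
    rintro x y z t ⟨a, b, rfl, rfl, hab⟩ ⟨c, d, rfl, rfl, hcd⟩
    exact ⟨a * c, b * d, rfl, rfl, α.mul hab hcd⟩

theorem push_iff {θ α : Con T} (h : θ ≤ α) (a b : T) : push θ α h (a : θ.Quotient) (b : θ.Quotient) ↔ α a b := by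
  constructor
  · rintro ⟨a', b', ha, hb, hab⟩
    have ha' : θ a' a := (Con.eq θ).1 ha
    have hb' : θ b' b := (Con.eq θ).1 hb
    exact α.trans (α.symm (h ha')) (α.trans hab (h hb'))
  · intro hab
    exact ⟨a, b, rfl, rfl, hab⟩

theorem RR_iff {θ α : Con T} (h : θ ≤ α) (a b : T) :
    RR (push θ α h) (a : θ.Quotient) (b : θ.Quotient) ↔ RR α a b := by
  constructor
  · rintro ⟨⟨p, hp⟩, q, hq⟩
    induction p using Con.induction_on with
    | _ p =>
      induction q using Con.induction_on with
      | _ q =>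
        rw [← Con.coe_mul, push_iff] at hp hq
        exact ⟨⟨p, hp⟩, q, hq⟩
  · rintro ⟨⟨p, hp⟩, q, hq⟩
    refine ⟨⟨(p : θ.Quotient), ?_⟩, (q : θ.Quotient), ?_⟩
    · rw [← Con.coe_mul, push_iff]; exact hp
    · rw [← Con.coe_mul, push_iff]; exact hq

theorem LL_iff {θ α : Con T} (h : θ ≤ α) (a b : T) :
    LL (push θ α h) (a : θ.Quotient) (b : θ.Quotient) ↔ LL α a b := by
  constructor
  · rintro ⟨⟨p, hp⟩, q, hq⟩
    induction p using Con.induction_on with
    | _ p =>
      induction q using Con.induction_on with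
      | _ q =>
        rw [← Con.coe_mul, push_iff] at hp hq
        exact ⟨⟨p, hp⟩, q, hq⟩
  · rintro ⟨⟨p, hp⟩, q, hq⟩
    refine ⟨⟨(p : θ.Quotient), ?_⟩, (q : θ.Quotient), ?_⟩
    · rw [← Con.coe_mul, push_iff]; exact hp
    · rw [← Con.coe_mul, push_iff]; exact hq

end push

theorem hI : StI := by
  intro T _ θ α β hα hβ h1 h2 hR hL a w b haw hwb
  have key := main (Q := θ.Quotient) (push θ α hα) (push θ β hβ) ?_ ?_ ?_ ?_ (a : θ.Quotient) (w : θ.Quotient)
    (b : θ.Quotient) ((push_iff hα a w).2 haw) ((push_iff hβ w b).2 hwb)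
  · obtain ⟨w', k1, k2⟩ := key
    induction w' using Con.induction_on with
    | _ w' => exact ⟨w', (push_iff hβ a w').1 k1, (push_iff hα w' b).1 k2⟩
  · intro x y
    induction x using Con.induction_on with
    | _ x =>
      induction y using Con.induction_on with
      | _ y =>
        obtain ⟨u, hu⟩ := h1 x y
        exact ⟨(u : θ.Quotient), (Con.eq θ).2 hu⟩
  · intro x y
    induction x using Con.induction_on with
    | _ x =>
      induction y using Con.induction_on with
      | _ y =>
        obtain ⟨u, hu⟩ := h2 x y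
        exact ⟨(u : θ.Quotient), (Con.eq θ).2 hu⟩
  · intro x y z hxy hyz
    induction x using Con.induction_on with
    | _ x =>
      induction y using Con.induction_on with
      | _ y =>
        induction z using Con.induction_on with
        | _ z =>
          rw [RR_iff] at hxy hyz
          obtain ⟨w', k1, k2⟩ := hR x y z hxy hyz
          exact ⟨(w' : θ.Quotient), (RR_iff hβ x w').2 k1, (RR_iff hα w' z).2 k2⟩
  · intro x y z hxy hyz
    induction x using Con.induction_on with
    | _ x =>
      induction y using Con.induction_on with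
      | _ y =>
        induction z using Con.induction_on with
        | _ z =>
          rw [LL_iff] at hxy hyz
          obtain ⟨w', k1, k2⟩ := hL x y z hxy hyz
          exact ⟨(w' : θ.Quotient), (LL_iff hβ x w').2 k1, (LL_iff hα w' z).2 k2⟩

end Pool.Agent.Helper51.CR
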